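import Pool.Agent.W811.LW.Stm

/-! Part LW-DWL of project LW (MP_e56372_nt): two independent short dual vectors give a short
vector. -/

set_option autoImplicit false

namespace Pool.Agent.W879.LW

open Pool.Agent.W811.LW

theorem dwl : DWL := by
  intro D c0 α β j t m y v w hD hc0 hc1 hy hv hw hcr hNv hNw
  obtain ⟨A, B, C⟩ := v
  obtain ⟨A', B', C'⟩ := w
  obtain ⟨hB, hC, hBm⟩ := hv
  obtain ⟨hB', hC', hBm'⟩ := hw
  simp only at hB hC hBm hB' hC' hBm'
  have hE2 : (2 : ℝ) ≤ (D : ℝ) := by exact_mod_cast hD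
  generalize hE : (D : ℝ) = E at *
  have hE0 : 0 < E := by linarith
  have hE1 : 1 ≤ E := by linarith
  simp only [NN, aW, bW] at hNv hNw
  have hv2 := le_trans (le_max_left _ _) hNv
  have hv3 := le_trans (le_max_right _ _) hNv
  have hw2 := le_trans (le_max_left _ _) hNw
  have hw3 := le_trans (le_max_right _ _) hNw
  set v2 : ℝ := E ^ (2 * j + t) * ((A : ℝ) + (B : ℝ) * α + (C : ℝ) * β) with hv2d
  set v3 : ℝ := (C : ℝ) / E ^ t with hv3d
  set w2 : ℝ := E ^ (2 * j + t) * ((A' : ℝ) + (B' : ℝ) * α + (C' : ℝ) * β) with hw2d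
  set w3 : ℝ := (C' : ℝ) / E ^ t with hw3d
  set v1 : ℝ := (B : ℝ) / E ^ (2 * j) with hv1d
  set w1 : ℝ := (B' : ℝ) / E ^ (2 * j) with hw1d
  set x : ℝ := E ^ (2 * m) / E ^ (2 * j) with hxd
  have hEj : 0 < E ^ (2 * j) := by positivity
  have hEt : 0 < E ^ t := by positivity
  have hx0 : 0 < x := by positivity
  have hv1 : |v1| ≤ x := by
    rw [hv1d, hxd, abs_div, abs_of_pos hEj]
    exact div_le_div_of_nonneg_right hBm hEj.le
  have hw1 : |w1| ≤ x := by
    rw [hw1d, hxd, abs_div, abs_of_pos hEj]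
    exact div_le_div_of_nonneg_right hBm' hEj.le
  set Z : ℝ := 8 * E ^ 4 * y with hZ
  have hZ0 : 0 < Z := by positivity
  -- bound of a bilinear expression
  have bil : ∀ a b c d P Q : ℝ, |a| ≤ P → |b| ≤ Q → |c| ≤ P → |d| ≤ Q →
      |a * b - c * d| ≤ 2 * (P * Q) := by
    intro a b c d P Q ha hb hc hd
    have h1 : |a * b| ≤ P * Q := by
      rw [abs_mul]
      exact mul_le_mul ha hb (abs_nonneg _) (le_trans (abs_nonneg _) ha)
    have h2 : |c * d| ≤ P * Q := by
      rw [abs_mul]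
      exact mul_le_mul hc hd (abs_nonneg _) (le_trans (abs_nonneg _) hc)
    calc |a * b - c * d| ≤ |a * b| + |c * d| := abs_sub _ _
      _ ≤ 2 * (P * Q) := by linarith
  set q : ℤ := B * C' - C * B' with hq
  set p1 : ℤ := C * A' - A * C' with hp1
  set p2 : ℤ := A * B' - B * A' with hp2
  have hcru : cr (A, B, C) (A', B', C') = (q, p1, p2) := rfl
  have hqr : (q : ℝ) = (B : ℝ) * C' - C * B' := by rw [hq]; push_cast; ring
  have hp1r : (p1 : ℝ) = (C : ℝ) * A' - A * C' := by rw [hp1]; push_cast; ring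
  have hp2r : (p2 : ℝ) = (A : ℝ) * B' - B * A' := by rw [hp2]; push_cast; ring
  have id1 : E ^ (2 * j) * ((q : ℝ) * α - (p1 : ℝ)) = w3 * v2 - v3 * w2 := by
    rw [hqr, hp1r, hw3d, hv2d, hv3d, hw2d, pow_add]
    field_simp
    ring
  have id2 : E ^ t * ((q : ℝ) * β - (p2 : ℝ)) = v1 * w2 - w1 * v2 := by
    rw [hqr, hp2r, hv1d, hw2d, hw1d, hv2d, pow_add]
    field_simp
    ring
  have id3 : (q : ℝ) / E ^ (2 * j + t) = v1 * w3 - w1 * v3 := by
    rw [hqr, hv1d, hw3d, hw1d, hv3d, pow_add]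
    field_simp
  have b1 : E ^ (2 * j) * |(q : ℝ) * α - (p1 : ℝ)| ≤ 128 * E ^ 8 * y ^ 2 := by
    have h := bil w3 v2 v3 w2 Z Z hw3 hv2 hv3 hw2
    rw [← id1, abs_mul, abs_of_pos hEj] at h
    calc E ^ (2 * j) * |(q : ℝ) * α - (p1 : ℝ)| ≤ 2 * (Z * Z) := h
      _ = 128 * E ^ 8 * y ^ 2 := by rw [hZ]; ring
  have b2 : |E ^ t * ((q : ℝ) * β - (p2 : ℝ))| ≤ 16 * E ^ 4 * x * y := by
    have h := bil v1 w2 w1 v2 x Z hv1 hw2 hw1 hv2
    rw [← id2] at h
    calc _ ≤ 2 * (x * Z) := h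
      _ = 16 * E ^ 4 * x * y := by rw [hZ]; ring
  have b3 : |(q : ℝ) / E ^ (2 * j + t)| ≤ 16 * E ^ 4 * x * y := by
    have h := bil v1 w3 w1 v3 x Z hv1 hw3 hw1 hv3
    rw [← id3] at h
    calc _ ≤ 2 * (x * Z) := h
      _ = 16 * E ^ 4 * x * y := by rw [hZ]; ring
  set K : ℝ := 128 * E ^ 8 * y ^ 2 with hK
  have hK0 : 0 < K := by positivity
  have hB1 : (1 : ℝ) ≤ |(B : ℝ)| := by
    have := Int.one_le_abs hB
    exact_mod_cast this
  by_cases hcase : E ^ (2 * j) ≤ K
  · left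
    have hx1 : 1 / E ^ (2 * j) ≤ x := by
      rw [hxd]
      exact div_le_div_of_nonneg_right (le_trans hB1 hBm) hEj.le
    have h2 : 1 / K ≤ 1 / E ^ (2 * j) := one_div_le_one_div_of_le hEj hcase
    have h3 : y ^ 2 / K ≤ x * y ^ 2 := by
      have : 1 / K * y ^ 2 ≤ x * y ^ 2 :=
        mul_le_mul_of_nonneg_right (le_trans h2 hx1) (by positivity)
      calc y ^ 2 / K = 1 / K * y ^ 2 := by ring
        _ ≤ _ := this
    have h4 : y ^ 2 / K = 1 / (128 * E ^ 8) := by
      rw [hK]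
      field_simp
    refine le_trans ?_ h3
    rw [h4, div_le_div_iff₀ (by positivity) (by positivity)]
    have h5 : c0 * (128 * E ^ 8) ≤ 1 * (128 * E ^ 8) :=
      mul_le_mul_of_nonneg_right hc1 (by positivity)
    have h6 : 128 * E ^ 8 ≤ 1024 * E ^ 10 := by
      have : E ^ 8 ≤ E ^ 10 := pow_le_pow_right₀ hE1 (by norm_num)
      nlinarith [pow_pos hE0 10, pow_pos hE0 8]
    linarith
  · right
    push Not at hcase
    have hq0 : q ≠ 0 := by
      intro h0
      have h1 : (q : ℝ) = 0 := by exact_mod_cast h0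
      have hp10 : p1 = 0 := by
        by_contra hne
        have h2 : (1 : ℝ) ≤ |(p1 : ℝ)| := by
          have := Int.one_le_abs hne
          exact_mod_cast this
        rw [h1, zero_mul, zero_sub, abs_neg] at b1
        have h3 : E ^ (2 * j) * 1 ≤ E ^ (2 * j) * |(p1 : ℝ)| :=
          mul_le_mul_of_nonneg_left h2 hEj.le
        linarith
      have hp20 : p2 ≠ 0 := by
        intro h2
        apply hcr
        rw [hcru, h0, hp10, h2]
      have hz : A * q + B * p1 + C * p2 = 0 := by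
        rw [hq, hp1, hp2]; ring
      rw [h0, hp10] at hz
      have : C * p2 = 0 := by linarith
      rcases mul_eq_zero.mp this with h | h
      · exact hC h
      · exact hp20 h
    have hex : ∃ n : ℕ, E ^ (2 * j) < K * E ^ (2 * n) := by
      obtain ⟨n, hn⟩ := pow_unbounded_of_one_lt (E ^ (2 * j) / K) (by linarith : (1 : ℝ) < E)
      refine ⟨n, ?_⟩
      have h1 : E ^ (2 * j) < K * E ^ n := by
        rw [div_lt_iff₀ hK0] at hn
        linarith
      have h2 : E ^ n ≤ E ^ (2 * n) := pow_le_pow_right₀ hE1 (by omega)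
      have h3 : K * E ^ n ≤ K * E ^ (2 * n) := mul_le_mul_of_nonneg_left h2 hK0.le
      linarith
    classical
    obtain ⟨n, hn1, hn2⟩ : ∃ n : ℕ, E ^ (2 * j) < K * E ^ (2 * n) ∧
        ∀ k < n, ¬ (E ^ (2 * j) < K * E ^ (2 * k)) :=
      ⟨Nat.find hex, Nat.find_spec hex, fun k hk => Nat.find_min hex hk⟩
    have hn0 : n ≠ 0 := by
      rintro rfl
      rw [mul_zero, pow_zero, mul_one] at hn1
      linarith
    obtain ⟨m', rfl⟩ := Nat.exists_eq_succ_of_ne_zero hn0
    have hm := hn2 m' (Nat.lt_succ_self _)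
    push Not at hm
    have hEm : 0 < E ^ (2 * m') := by positivity
    refine ⟨m', ?_, ?_⟩
    · rw [div_le_iff₀ hEm]
      have h1 : K * E ^ (2 * m'.succ) = 128 * E ^ 10 * y ^ 2 * E ^ (2 * m') := by
        rw [hK, Nat.succ_eq_add_one, mul_add, pow_add]
        ring
      rw [← h1]
      exact hn1.le
    · have hmem : (q, p1, p2) ∈ famV E α m' := by
        refine ⟨hq0, ?_⟩
        show |(q : ℝ) * α - (p1 : ℝ)| * E ^ (2 * m') ≤ 1
        have h1 : E ^ (2 * j) * |(q : ℝ) * α - (p1 : ℝ)| * E ^ (2 * m') ≤ E ^ (2 * j) :=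
          le_trans (mul_le_mul_of_nonneg_right b1 hEm.le) hm
        have h2 : E ^ (2 * j) * (|(q : ℝ) * α - (p1 : ℝ)| * E ^ (2 * m')) ≤ E ^ (2 * j) * 1 := by
          linarith
        exact le_of_mul_le_mul_left h2 hEj
      have hle : yV E α j t β m' ≤ NN (aV E t β) (bV E j t) (q, p1, p2) := by
        apply csInf_le
        · refine ⟨0, ?_⟩
          rintro _ ⟨z, _, rfl⟩
          exact le_trans (abs_nonneg _) (le_max_left _ _)
        · exact ⟨_, hmem, rfl⟩
      refine le_trans hle ?_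
      exact max_le b2 b3

end Pool.Agent.W879.LW
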